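import Pool.Agent.W659.FK.Stm
import Pool.Agent.H341R2.Stepanov
import Pool.Agent.W327.FD.Line
import Pool.Agent.W340.FD.App

/-!
Project FK, task LINEK: density of the square values over a finite field.
-/

set_option autoImplicit false

open MvPolynomial

namespace Pool.Agent.W462.FK

open Pool.Agent.W659.FD Pool.Agent.W659.FK W327.FD

open Classical in
open Polynomial in
theorem uni {k : Type} [Field k] [Fintype k] (hF : ringChar k ≠ 2) (D : ℕ)
    (f : Polynomial k) (hfD : f.natDegree ≤ D)
    (hns : ∀ (c : k) (h : Polynomial k), f ≠ Polynomial.C c * h ^ 2) :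
    ((({x : k | ∃ w : k, w ^ 2 = f.eval x}).ncard : ℕ) : ℝ) ≤
      (Fintype.card k : ℝ) / 2 + (3 * D : ℝ) * Real.sqrt (Fintype.card k : ℝ) := by
  have hf0 : f ≠ 0 := by
    intro h
    refine hns 0 1 ?_
    rw [h]; simp
  have hd : 1 ≤ f.natDegree := by
    by_contra hcon
    have h0 : f.natDegree = 0 := by omega
    refine hns (f.coeff 0) 1 ?_
    rw [one_pow, mul_one]
    exact Polynomial.eq_C_of_natDegree_eq_zero h0
  have hW := Pool.Agent.H341R2.weil_bound hF f hd hns
  set p : ℕ := Fintype.card k with hpdef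
  have hD1 : (f.natDegree : ℝ) ≤ D := by exact_mod_cast hfD
  have hsq1 : 1 ≤ Real.sqrt p := by
    rw [show (1 : ℝ) = Real.sqrt 1 by simp]
    apply Real.sqrt_le_sqrt
    have : 1 ≤ p := Fintype.card_pos
    exact_mod_cast this
  -- the number of zeros
  have hroots : (((Finset.univ.filter fun x : k => f.eval x = 0).card : ℕ) : ℝ) ≤ D := by
    have h1 : (Finset.univ.filter fun x : k => f.eval x = 0) ⊆ f.roots.toFinset := by
      intro x hx
      rw [Finset.mem_filter] at hx
      rw [Multiset.mem_toFinset, Polynomial.mem_roots hf0]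
      exact hx.2
    have h2 := (Finset.card_le_card h1).trans ((Multiset.toFinset_card_le _).trans
      (Polynomial.card_roots' f))
    have h3 : (Finset.univ.filter fun x : k => f.eval x = 0).card ≤ D := h2.trans hfD
    exact_mod_cast h3
  have hS : ({x : k | ∃ w : k, w ^ 2 = f.eval x}).ncard =
      (Finset.univ.filter fun x : k => ∃ w : k, w ^ 2 = f.eval x).card := by
    rw [← Set.ncard_coe_finset]
    congr 1
    ext x
    simp
  rw [hS, Finset.card_filter]
  rw [Finset.card_filter] at hroots
  push_cast at hroots ⊢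
  have hpt : ∀ x : k, (if ∃ w : k, w ^ 2 = f.eval x then (1 : ℝ) else 0) ≤
      1 / 2 + (quadraticChar k (f.eval x) : ℝ) / 2 +
        (if f.eval x = 0 then (1 : ℝ) else 0) / 2 := by
    intro x
    by_cases h0 : f.eval x = 0
    · rw [if_pos h0, if_pos ⟨0, by rw [h0]; simp⟩, h0]
      rw [quadraticChar_zero]
      norm_num
    · rw [if_neg h0]
      by_cases hsq : ∃ w : k, w ^ 2 = f.eval x
      · rw [if_pos hsq]
        have h1 : quadraticChar k (f.eval x) = 1 := by
          rw [quadraticChar_one_iff_isSquare h0]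
          obtain ⟨w, hw⟩ := hsq
          exact ⟨w, by rw [← hw]; ring⟩
        rw [h1]
        norm_num
      · rw [if_neg hsq]
        rcases quadraticChar_dichotomy h0 with h | h <;> rw [h] <;> norm_num
  have hsum := Finset.sum_le_sum fun (x : k) (_ : x ∈ Finset.univ) => hpt x
  rw [Finset.sum_add_distrib, Finset.sum_add_distrib, ← Finset.sum_div, ← Finset.sum_div,
    Finset.sum_const, Finset.card_univ, ← hpdef, nsmul_eq_mul] at hsum
  have e3 : (∑ i : k, (if f.eval i = 0 then (1 : ℝ) else 0)) / 2 ≤ D / 2 := by linarith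
  try rw [Finset.sum_div] at e3
  have hW1 := (abs_le.1 hW).2
  have e1 : 5 * (f.natDegree : ℝ) * Real.sqrt p ≤ 5 * D * Real.sqrt p := by
    have := Real.sqrt_nonneg (p : ℝ)
    nlinarith
  have e2 : (D : ℝ) ≤ D * Real.sqrt p := by
    have : (0 : ℝ) ≤ D := Nat.cast_nonneg D
    nlinarith
  linarith


open Classical in
theorem zeros_le {k : Type} [Field k] [Fintype k] {n : ℕ} {R : MvPolynomial (Fin n) k} (hR : R ≠ 0)
    {D : ℕ} (hD : R.totalDegree ≤ D) :
    (((Finset.univ.filter fun a : Fin n → k => eval a R = 0).card : ℕ) : ℝ) * Fintype.card k ≤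
      D * (Fintype.card k : ℝ) ^ n := by
  set p : ℕ := Fintype.card k with hpdef
  have h := schwartz_zippel_totalDegree hR (Finset.univ : Finset k)
  have hp : 0 < p := Fintype.card_pos
  have hp' : (0 : ℚ≥0) < (p : ℚ≥0) := by exact_mod_cast hp
  rw [Fintype.piFinset_univ, Finset.card_univ, ← hpdef, div_le_div_iff₀ (by positivity) hp'] at h
  have h1 : (Finset.univ.filter fun a : Fin n → k => eval a R = 0).card * p ≤
      R.totalDegree * p ^ n := by exact_mod_cast h
  have h2 : (Finset.univ.filter fun a : Fin n → k => eval a R = 0).card * p ≤ D * p ^ n :=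
    h1.trans (Nat.mul_le_mul_right _ hD)
  exact_mod_cast h2


theorem main : S_LINEK := by
  classical
  intro n D hn
  have hA : S_APP := Pool.Agent.W340.FD.App.main
  obtain ⟨K, hKdef, hK⟩ : ∃ K : ℝ, K = 3 * D ∧ 0 ≤ K := ⟨3 * D, rfl, by positivity⟩
  refine ⟨Nat.ceil (144 * K ^ 2) + 12 * D + 3, ?_⟩
  intro k _ _ h2 hp f hfD hf
  set p : ℕ := Fintype.card k with hpdef
  have hp2 : 2 < p := by omega
  have hp0 : (0 : ℝ) < p := by exact_mod_cast (show 0 < p by omega)
  have hchar : ringChar k ≠ 2 := by
    intro h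
    apply h2
    have h3 : ((ringChar k : ℕ) : k) = 0 := ringChar.Nat.cast_ringChar
    rw [h] at h3
    exact_mod_cast h3
  have hKp : ∀ g : Polynomial k, g.natDegree ≤ D →
      (∀ (c : k) (h : Polynomial k), g ≠ Polynomial.C c * h ^ 2) →
      ((({x : k | ∃ w : k, w ^ 2 = g.eval x}).ncard : ℕ) : ℝ) ≤ p / 2 + K * Real.sqrt p := by
    intro g hg hgs
    rw [hKdef]
    exact uni hchar D g hg hgs
  have hfne : f ≠ 0 := fun h => hf 0 1 (by rw [h]; simp)
  have htop := top_ne hfne
  obtain ⟨v, hv⟩ : ∃ v : Fin n → k, eval v (homogeneousComponent f.totalDegree f) ≠ 0 := by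
    by_contra hcon
    push Not at hcon
    have h1 := zeros_le htop (D := D)
      ((homogeneousComponent_isHomogeneous f.totalDegree f).totalDegree_le.trans hfD)
    have h3 : (Finset.univ.filter fun a : Fin n → k =>
        eval a (homogeneousComponent f.totalDegree f) = 0) = Finset.univ := by
      apply Finset.filter_true_of_mem
      intro a _; exact hcon a
    rw [h3, Finset.card_univ, Fintype.card_fun, Fintype.card_fin, ← hpdef] at h1
    push_cast at h1
    have h4 : (0 : ℝ) < (p : ℝ) ^ n := by positivity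
    have h5 : (p : ℝ) ≤ D := by
      have : (p : ℝ) ^ n * p ≤ (p : ℝ) ^ n * D := by linarith
      exact le_of_mul_le_mul_left this h4
    have h6 : p ≤ D := by exact_mod_cast h5
    omega
  obtain ⟨R, hR, hRD, hbad⟩ := exists_bad hA h2 f hf v hv
  have hz := zeros_le hR (hRD.trans hfD)
  set S := Finset.univ.filter (fun t : Fin n → k => ∃ w, w ^ 2 = eval t f) with hSdef
  have hS : (Sq f).ncard = S.card := by
    rw [← Set.ncard_coe_finset]
    congr 1
    ext t
    simp [Sq, hSdef]
  have hdc : (∑ a : Fin n → k, (Finset.univ.filter fun s : k =>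
      (fun i => a i + s * v i) ∈ S).card) = p * S.card := by
    have e1 : ∀ a : Fin n → k, (Finset.univ.filter fun s : k =>
      (fun i => a i + s * v i) ∈ S).card = ∑ s : k, if (fun i => a i + s * v i) ∈ S then 1 else 0 := by
      intro a; rw [Finset.card_filter]
    rw [Finset.sum_congr rfl fun a _ => e1 a, Finset.sum_comm]
    have e2 : ∀ s : k, (∑ a : Fin n → k, if (fun i => a i + s * v i) ∈ S then 1 else 0) =
        S.card := by
      intro s
      have e3 := Equiv.sum_comp (Equiv.addRight (fun i => s * v i : Fin n → k))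
        (fun a : Fin n → k => if a ∈ S then 1 else 0)
      rw [Finset.sum_ite_mem, Finset.univ_inter, Finset.sum_const, smul_eq_mul, mul_one] at e3
      rw [← e3]
      rfl
    rw [Finset.sum_congr rfl fun s _ => e2 s, Finset.sum_const, Finset.card_univ, ← hpdef,
      smul_eq_mul]
  have hline : ∀ a : Fin n → k, (((Finset.univ.filter fun s : k =>
      (fun i => a i + s * v i) ∈ S).card : ℕ) : ℝ) ≤ (p / 2 + K * Real.sqrt p) +
        (if eval a R = 0 then (p : ℝ) else 0) := by
    intro a
    by_cases ha : eval a R = 0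
    · rw [if_pos ha]
      have h3 : (Finset.univ.filter fun s : k => (fun i => a i + s * v i) ∈ S).card ≤ p := by
        refine (Finset.card_le_univ _).trans ?_
        exact le_rfl
      have h4 : (((Finset.univ.filter fun s : k =>
        (fun i => a i + s * v i) ∈ S).card : ℕ) : ℝ) ≤ p := by exact_mod_cast h3
      have h5 : 0 ≤ p / 2 + K * Real.sqrt p := by positivity
      linarith
    · rw [if_neg ha, add_zero]
      have h3 : ((lin v f).map (eval a)).natDegree ≤ D := by
        rw [Polynomial.natDegree_le_iff_coeff_eq_zero]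
        intro j hj
        rw [Polynomial.coeff_map, filt_coeff_zero (lin_filt v f hfD).1 hj, map_zero]
      have h4 := hKp ((lin v f).map (eval a)) h3 (by
        intro c h hch
        exact ha (hbad a ⟨c, h, hch⟩))
      have h5 : ({x : k | ∃ w : k, w ^ 2 = ((lin v f).map (eval a)).eval x}).ncard =
          (Finset.univ.filter fun s : k => (fun i => a i + s * v i) ∈ S).card := by
        rw [← Set.ncard_coe_finset]
        congr 1
        ext s
        simp only [Set.mem_ofPred_eq, Finset.coe_filter, Finset.mem_univ, true_and, hSdef,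
          Finset.mem_filter, lin_eval]
      rw [← h5]
      exact h4
  have hsum : (p : ℝ) * S.card ≤ (p : ℝ) ^ n * (p / 2 + K * Real.sqrt p) + D * (p : ℝ) ^ n := by
    have h3 : (p : ℝ) * S.card = ∑ a : Fin n → k, (((Finset.univ.filter fun s : k =>
      (fun i => a i + s * v i) ∈ S).card : ℕ) : ℝ) := by
      rw [← Nat.cast_sum, hdc]; push_cast; ring
    rw [h3]
    refine (Finset.sum_le_sum fun a _ => hline a).trans ?_
    rw [Finset.sum_add_distrib, Finset.sum_const, Finset.card_univ, Fintype.card_fun,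
      Fintype.card_fin, ← hpdef, nsmul_eq_mul, Nat.cast_pow, Finset.sum_ite, Finset.sum_const,
      Finset.sum_const_zero, nsmul_eq_mul, add_zero]
    linarith
  rw [hS]
  have hpc : 144 * K ^ 2 ≤ p := by
    have h3 := Nat.le_ceil (144 * K ^ 2)
    have h4 : ((Nat.ceil (144 * K ^ 2) : ℕ) : ℝ) ≤ p := by
      exact_mod_cast (show Nat.ceil (144 * K ^ 2) ≤ p by omega)
    linarith
  have hpd : 12 * (D : ℝ) ≤ p := by exact_mod_cast (show 12 * D ≤ p by omega)
  have hKs : K * Real.sqrt p ≤ p / 12 := by
    have h3 : 12 * K ≤ Real.sqrt p := by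
      apply Real.le_sqrt_of_sq_le
      nlinarith
    have h4 : Real.sqrt p * Real.sqrt p = p := Real.mul_self_sqrt hp0.le
    nlinarith [Real.sqrt_nonneg (p : ℝ)]
  have hpn : (0 : ℝ) < (p : ℝ) ^ n := by positivity
  have h3 : (p : ℝ) * S.card ≤ p * (2 / 3 * (p : ℝ) ^ n) := by
    refine hsum.trans ?_
    nlinarith [mul_le_mul_of_nonneg_left hKs hpn.le, mul_le_mul_of_nonneg_left hpd hpn.le]
  exact le_of_mul_le_mul_left h3 hp0


end Pool.Agent.W462.FK
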